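import Mathlib
import Pool.Agent.H200R3.TwoN

set_option autoImplicit false

/-!
# Union-closed families with at most twice as many members as classes of elements

Call two elements of the union of `A` equivalent if they lie in the same members, and let `n` be the
number of classes.  If `A` is union-closed and has at most `2 n` members, then every nonempty member
of `A` contains an element lying in at least half of the members.
-/

namespace Pool.Agent.Results.MP_ff7426_co.LocalHalf

theorem result (A : Finset (Finset ℕ)) (hU : ∀ X ∈ A, ∀ Y ∈ A, X ∪ Y ∈ A)
    (hm : A.card ≤ 2 * ((A.sup id).image (fun x => A.filter (fun S => x ∈ S))).card) :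
    ∀ S ∈ A, S.Nonempty → ∃ y ∈ S, A.card ≤ 2 * (A.filter (fun T => y ∈ T)).card :=
  Pool.Agent.H200R3.TwoN.local_half A hU hm

end Pool.Agent.Results.MP_ff7426_co.LocalHalf
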